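import Pool.Agent.H42.Hb.Comp
import Pool.Agent.H42.Hb.Gen

/-!
Minimal normal subgroups of finite groups without solvable normal subgroups, and their simple
factors.
-/

open Finset

open scoped commutatorElement

namespace Pool.Agent.H72.Comp

open Pool.Agent.H42.Hb

variable {Q : Type} [Group Q]

/-- minimal normal subgroups -/
def IsMinNormal (N : Subgroup Q) : Prop :=
  N.Normal ∧ N ≠ ⊥ ∧ ∀ M : Subgroup Q, M.Normal → M ≤ N → M ≠ ⊥ → M = N

/-- `N` normalises `S` -/
def Nz (N S : Subgroup Q) : Prop := ∀ n ∈ N, ∀ s ∈ S, n * s * n⁻¹ ∈ S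

/-- simple factors of minimal normal subgroups -/
def IsComponent (U S : Subgroup Q) : Prop :=
  ∃ N, IsMinNormal N ∧ N ≤ U ∧ S ≤ N ∧ S ≠ ⊥ ∧ Nz N S ∧ ∀ M ≤ S, M ≠ ⊥ → Nz N M → M = S

theorem comp_commute {U S S' : Subgroup Q} (hS : IsComponent U S) (hS' : IsComponent U S')
    (hne : S ≠ S') : ∀ x ∈ S, ∀ y ∈ S', x * y = y * x := by
  obtain ⟨N, hN, -, hSN, hSb, hSz, hSm⟩ := hS
  obtain ⟨N', hN', -, hSN', hSb', hSz', hSm'⟩ := hS'
  have key : ∀ x ∈ S, ∀ y ∈ S', x * y * x⁻¹ * y⁻¹ ∈ (⊥ : Subgroup Q) := by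
    by_cases h : N = N'
    · subst h
      have hinf : S ⊓ S' = ⊥ := by
        by_contra hcon
        have hz : Nz N (S ⊓ S') := fun n hn s hs => ⟨hSz n hn s hs.1, hSz' n hn s hs.2⟩
        have h1 := hSm _ inf_le_left hcon hz
        have h2 := hSm' _ inf_le_right hcon hz
        exact hne (h1.symm.trans h2)
      intro x hx y hy
      rw [← hinf]
      constructor
      · have h1 : x * y * x⁻¹ * y⁻¹ = x * (y * x⁻¹ * y⁻¹) := by group
        rw [h1]
        exact S.mul_mem hx (hSz y (hSN' hy) _ (S.inv_mem hx))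
      · exact S'.mul_mem (hSz' x (hSN hx) y hy) (S'.inv_mem hy)
    · have hinf : N ⊓ N' = ⊥ := by
        by_contra hcon
        have hn : (N ⊓ N').Normal := by
          have := hN.1
          have := hN'.1
          infer_instance
        have h1 := hN.2.2 _ hn inf_le_left hcon
        have h2 := hN'.2.2 _ hn inf_le_right hcon
        exact h (h1.symm.trans h2)
      intro x hx y hy
      rw [← hinf]
      constructor
      · have h1 : x * y * x⁻¹ * y⁻¹ = x * (y * x⁻¹ * y⁻¹) := by group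
        rw [h1]
        exact N.mul_mem (hSN hx) (hN.1.conj_mem _ (N.inv_mem (hSN hx)) y)
      · exact N'.mul_mem (hN'.1.conj_mem _ (hSN' hy) x) (N'.inv_mem (hSN' hy))
  intro x hx y hy
  have h1 := Subgroup.mem_bot.1 (key x hx y hy)
  rw [mul_inv_eq_one, mul_inv_eq_iff_eq_mul] at h1
  exact h1

theorem exists_minNormal [Finite Q] (M : Subgroup Q) (hM : M.Normal) (hne : M ≠ ⊥) :
    ∃ N, IsMinNormal N ∧ N ≤ M := by
  obtain ⟨N, hN⟩ := (Set.toFinite {N : Subgroup Q | N.Normal ∧ N ≠ ⊥ ∧ N ≤ M}).exists_minimal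
    ⟨M, hM, hne, le_rfl⟩
  refine ⟨N, ⟨hN.prop.1, hN.prop.2.1, fun K hK hKN hKb => ?_⟩, hN.prop.2.2⟩
  exact le_antisymm hKN (hN.2 ⟨hK, hKb, hKN.trans hN.prop.2.2⟩ hKN)

theorem exists_comp [Finite Q] {N U : Subgroup Q} (hN : IsMinNormal N) (hNU : N ≤ U) :
    ∃ S, IsComponent U S ∧ S ≤ N := by
  obtain ⟨S, hS⟩ := (Set.toFinite {S : Subgroup Q | S ≤ N ∧ S ≠ ⊥ ∧ Nz N S}).exists_minimal
    ⟨N, le_rfl, hN.2.1, fun n hn s hs => hN.1.conj_mem s hs n⟩
  refine ⟨S, ⟨N, hN, hNU, hS.prop.1, hS.prop.2.1, hS.prop.2.2, fun M hMS hMb hMz => ?_⟩,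
    hS.prop.1⟩
  exact le_antisymm hMS (hS.2 ⟨hMS.trans hS.prop.1, hMb, hMz⟩ hMS)

theorem cj_le_iff {S T : Subgroup Q} {x : Q} : cj S x ≤ T ↔ S ≤ cj T x⁻¹ := by
  constructor
  · intro h s hs
    rw [mem_cj]
    apply h
    rw [mem_cj]
    have : x⁻¹ * (x⁻¹⁻¹ * s * x⁻¹) * x = s := by group
    rwa [this]
  · intro h s hs
    rw [mem_cj] at hs
    have := mem_cj.1 (h hs)
    have h2 : x⁻¹⁻¹ * (x⁻¹ * s * x) * x⁻¹ = s := by group
    rwa [h2] at this

theorem cj_cj {S : Subgroup Q} {x y : Q} : cj (cj S x) y = cj S (y * x) := by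
  ext w
  rw [mem_cj, mem_cj, mem_cj]
  have : x⁻¹ * (y⁻¹ * w * y) * x = (y * x)⁻¹ * w * (y * x) := by group
  rw [this]

theorem cj_one {S : Subgroup Q} : cj S 1 = S := by
  ext w
  rw [mem_cj]
  simp

theorem cj_bot {x : Q} : cj (⊥ : Subgroup Q) x = ⊥ := Subgroup.map_bot _

theorem cj_ne_bot {S : Subgroup Q} (h : S ≠ ⊥) (x : Q) : cj S x ≠ ⊥ := by
  intro h1
  apply h
  have h2 := congrArg (fun T => cj T x⁻¹) h1
  simp only [cj_cj, cj_bot, inv_mul_cancel, cj_one] at h2
  exact h2

theorem nz_cj {N S : Subgroup Q} (hN : N.Normal) (h : Nz N S) (x : Q) : Nz N (cj S x) := by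
  intro n hn s hs
  rw [mem_cj] at hs ⊢
  have h1 := h (x⁻¹ * n * x) (by
    have := hN.conj_mem n hn x⁻¹
    rwa [inv_inv] at this) _ hs
  have h2 : x⁻¹ * n * x * (x⁻¹ * s * x) * (x⁻¹ * n * x)⁻¹ = x⁻¹ * (n * s * n⁻¹) * x := by group
  rwa [h2] at h1

theorem comp_cj {U S : Subgroup Q} (hS : IsComponent U S) (x : Q) : IsComponent U (cj S x) := by
  obtain ⟨N, hN, hNU, hSN, hSb, hSz, hSm⟩ := hS
  refine ⟨N, hN, hNU, ?_, cj_ne_bot hSb x, nz_cj hN.1 hSz x, ?_⟩
  · intro s hs
    rw [mem_cj] at hs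
    have h1 := hN.1.conj_mem _ (hSN hs) x
    have h2 : x * (x⁻¹ * s * x) * x⁻¹ = s := by group
    rwa [h2] at h1
  · intro M hM hMb hMz
    have h1 : cj M x⁻¹ ≤ S := by
      rw [cj_le_iff, inv_inv]
      exact hM
    have h2 := hSm _ h1 (cj_ne_bot hMb _) (nz_cj hN.1 hMz _)
    rw [← h2, cj_cj, mul_inv_cancel, cj_one]

/-- a minimal normal subgroup is generated by the conjugates of a component -/
theorem minNormal_le {N S T : Subgroup Q} (hN : IsMinNormal N) (hSN : S ≤ N) (hSb : S ≠ ⊥)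
    (hT : ∀ x, cj S x ≤ T) : N ≤ T := by
  have h1 : Subgroup.normalClosure (S : Set Q) ≤ N := by
    have := hN.1
    exact Subgroup.normalClosure_le_normal hSN
  have h2 : Subgroup.normalClosure (S : Set Q) ≠ ⊥ := by
    intro h
    apply hSb
    rw [eq_bot_iff, ← h]
    exact Subgroup.subset_normalClosure
  have h3 := hN.2.2 _ Subgroup.normalClosure_normal h1 h2
  rw [← h3]
  exact normalClosure_le_of hT

theorem comp_perfect {U S : Subgroup Q}
    (hU : ∀ M : Subgroup Q, M.Normal → M ≤ U → Group.IsSolvable M → M = ⊥)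
    (hS : IsComponent U S) : ⁅S, S⁆ = S := by
  have hS0 := hS
  obtain ⟨N, hN, hNU, hSN, hSb, hSz, hSm⟩ := hS
  have hle : ⁅S, S⁆ ≤ S := by
    rw [Subgroup.commutator_le]
    intro x hx y hy
    rw [commutatorElement_def]
    exact S.mul_mem (S.mul_mem (S.mul_mem hx hy) (S.inv_mem hx)) (S.inv_mem hy)
  by_cases hb : ⁅S, S⁆ = ⊥
  · exfalso
    have hc : ∀ x ∈ S, ∀ y ∈ S, x * y = y * x := by
      intro x hx y hy
      have h1 := Subgroup.commutator_mem_commutator hx hy
      rw [hb, Subgroup.mem_bot, commutatorElement_eq_one_iff_mul_comm] at h1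
      exact h1
    have hcc : ∀ x y : Q, ∀ a ∈ cj S x, ∀ b ∈ cj S y, a * b = b * a := by
      intro x y a ha b hb
      by_cases hxy : cj S x = cj S y
      · rw [← hxy, mem_cj] at hb
        rw [mem_cj] at ha
        have h1 := hc _ ha _ hb
        have h2 : x * (x⁻¹ * a * x * (x⁻¹ * b * x)) * x⁻¹ = a * b := by group
        have h3 : x * (x⁻¹ * b * x * (x⁻¹ * a * x)) * x⁻¹ = b * a := by group
        rw [← h2, ← h3, h1]
      · exact comp_commute (comp_cj hS0 x) (comp_cj hS0 y) hxy a ha b hb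
    have h1 : N ≤ Subgroup.centralizer (N : Set Q) := by
      refine minNormal_le hN hSN hSb fun x => ?_
      intro a ha
      rw [Subgroup.mem_centralizer_iff]
      intro b hb
      have h2 : N ≤ Subgroup.centralizer (cj S x : Set Q) := by
        refine minNormal_le hN hSN hSb fun y => ?_
        intro c hc
        rw [Subgroup.mem_centralizer_iff]
        intro d hd
        exact hcc x y d hd c hc
      exact (Subgroup.mem_centralizer_iff.1 (h2 hb) a ha).symm
    have hsolv : Group.IsSolvable N := by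
      have : IsMulCommutative N := ⟨⟨fun a b => Subtype.ext
        ((Subgroup.mem_centralizer_iff.1 (h1 b.2) a a.2))⟩⟩
      have h2 : commutator N = ⊥ := by
        rw [commutator_def, Subgroup.commutator_eq_bot_iff_le_centralizer]
        intro a _
        rw [Subgroup.mem_centralizer_iff]
        intro b _
        exact Subtype.ext ((Subgroup.mem_centralizer_iff.1 (h1 a.2) b b.2))
      rw [Group.isSolvable_def]
      refine ⟨1, ?_⟩
      rw [derivedSeries_one, h2]
    exact hN.2.1 (hU N hN.1 hNU hsolv)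
  · refine hSm _ hle hb ?_
    intro n hn c hc
    have h1 : ⁅S, S⁆ ≤ cj ⁅S, S⁆ n⁻¹ := by
      have h2 : cj ⁅S, S⁆ n⁻¹ = ⁅cj S n⁻¹, cj S n⁻¹⁆ := Subgroup.map_commutator _ _ _
      rw [h2]
      have h3 : S ≤ cj S n⁻¹ := by
        intro s hs
        rw [mem_cj]
        have h4 := hSz n hn s hs
        rwa [inv_inv]
      exact Subgroup.commutator_mono h3 h3
    have h2 := h1 hc
    rw [mem_cj, inv_inv] at h2
    exact h2

theorem comp_simple {U S : Subgroup Q}
    (hU : ∀ M : Subgroup Q, M.Normal → M ≤ U → Group.IsSolvable M → M = ⊥)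
    (hS : IsComponent U S) : IsSimpleGroup S ∧ (∃ a b : S, a * b ≠ b * a) ∧ S.IsSubnormal := by
  have hperf := comp_perfect hU hS
  have hS0 := hS
  obtain ⟨N, hN, hNU, hSN, hSb, hSz, hSm⟩ := hS
  have hnt : Nontrivial S := (Subgroup.nontrivial_iff_ne_bot S).2 hSb
  refine ⟨⟨fun H hH => ?_⟩, ?_, ?_⟩
  · by_cases hb : H = ⊥
    · exact Or.inl hb
    right
    have h1 : H.map S.subtype ≤ S := by
      rintro _ ⟨h, _, rfl⟩
      exact h.2
    have h2 : H.map S.subtype ≠ ⊥ := by
      intro h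
      apply hb
      rw [Subgroup.map_eq_bot_iff, S.ker_subtype] at h
      exact le_bot_iff.1 h
    have h3 : Nz N (H.map S.subtype) := by
      have h4 : N ≤ Subgroup.normalizer ((H.map S.subtype : Subgroup Q) : Set Q) := by
        refine minNormal_le hN hSN hSb fun x => ?_
        intro s hs
        rw [Subgroup.mem_normalizer_iff]
        by_cases hx : cj S x = S
        · rw [hx] at hs
          intro w
          constructor
          · rintro ⟨w, hw, rfl⟩
            exact ⟨⟨s, hs⟩ * w * ⟨s, hs⟩⁻¹, hH.conj_mem w hw _, rfl⟩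
          · rintro ⟨w', hw', hww⟩
            refine ⟨⟨s, hs⟩⁻¹ * w' * ⟨s, hs⟩, ?_, ?_⟩
            · have := hH.conj_mem w' hw' (⟨s, hs⟩⁻¹)
              rwa [inv_inv] at this
            · have h5 : (w' : Q) = s * w * s⁻¹ := hww
              change s⁻¹ * (w' : Q) * s = w
              rw [h5]
              group
        · have h5 := comp_commute (comp_cj hS0 x) hS0 hx s hs
          intro w
          constructor
          · intro hw
            have h6 := h5 w (h1 hw)
            have h7 : s * w * s⁻¹ = w := by rw [h6]; group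
            rw [h7]
            exact hw
          · intro hw
            have h6 := h5 _ (h1 hw)
            have h7 : s * w * s⁻¹ = w := by
              have h8 : s * (s * w * s⁻¹) = s * w := by rw [h6]; group
              exact mul_left_cancel h8
            rwa [h7] at hw
      intro n hn s hs
      exact (Subgroup.mem_normalizer_iff.1 (h4 hn) s).1 hs
    have h5 := hSm _ h1 h2 h3
    rw [eq_top_iff]
    intro s _
    have h6 : (s : Q) ∈ H.map S.subtype := by rw [h5]; exact s.2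
    obtain ⟨s', hs', hss⟩ := h6
    have : s' = s := Subtype.ext hss
    rwa [this] at hs'
  · by_contra hcon
    push Not at hcon
    apply hSb
    rw [← hperf, Subgroup.commutator_eq_bot_iff_le_centralizer]
    intro a ha
    rw [Subgroup.mem_centralizer_iff]
    intro b hb
    exact congrArg Subtype.val (hcon ⟨b, hb⟩ ⟨a, ha⟩)
  · have h1 : (S.subgroupOf N).Normal := by
      refine ⟨fun s hs n => ?_⟩
      rw [Subgroup.mem_subgroupOf] at hs ⊢
      exact hSz n n.2 s hs
    exact Subgroup.IsSubnormal.trans hSN h1.isSubnormal hN.1.isSubnormal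

/-- commuting subgroups: order of the join -/
theorem card_sup_le [Finite Q] {S K : Subgroup Q} (h : ∀ x ∈ S, ∀ y ∈ K, x * y = y * x) :
    Nat.card (S ⊔ K : Subgroup Q) ≤ Nat.card S * Nat.card K := by
  let f : S × K →* Q := MonoidHom.noncommCoprod S.subtype K.subtype (fun x y => h x x.2 y y.2)
  have h1 : f.range = S ⊔ K := by
    have h2 := MonoidHom.noncommCoprod_range S.subtype K.subtype (fun x y => h x x.2 y y.2)
    rw [S.range_subtype, K.range_subtype] at h2
    exact h2
  rw [← h1, ← Nat.card_prod]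
  exact Nat.card_le_card_of_surjective _ f.rangeRestrict_surjective

theorem sup_commute {s : Finset (Subgroup Q)} {S : Subgroup Q}
    (h : ∀ T ∈ s, ∀ x ∈ S, ∀ y ∈ T, x * y = y * x) : ∀ x ∈ S, ∀ y ∈ s.sup id, x * y = y * x := by
  intro x hx y hy
  have h1 : s.sup id ≤ Subgroup.centralizer {x} := by
    apply Finset.sup_le
    intro T hT t ht
    rw [Subgroup.mem_centralizer_iff]
    intro z hz
    rw [Set.mem_singleton_iff.1 hz]
    exact h T hT x hx t ht
  exact Subgroup.mem_centralizer_iff.1 (h1 hy) x rfl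

theorem card_sup_le_prod [Finite Q] (s : Finset (Subgroup Q))
    (h : ∀ S ∈ s, ∀ T ∈ s, S ≠ T → ∀ x ∈ S, ∀ y ∈ T, x * y = y * x) :
    Nat.card (s.sup id : Subgroup Q) ≤ ∏ S ∈ s, Nat.card S := by
  classical
  induction s using Finset.induction_on with
  | empty =>
    simp
  | insert S s hS ih =>
    rw [Finset.sup_insert, Finset.prod_insert hS, id]
    refine (card_sup_le ?_).trans (Nat.mul_le_mul_left _ (ih ?_))
    · refine sup_commute fun T hT => ?_
      exact h S (Finset.mem_insert_self _ _) T (Finset.mem_insert_of_mem hT) (fun h' => by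
        rw [h'] at hS
        exact hS hT)
    · intro A hA B hB
      exact h A (Finset.mem_insert_of_mem hA) B (Finset.mem_insert_of_mem hB)

/-- **Socle bound.** -/
theorem card_le_of_components [Finite Q] (U : Subgroup Q) [U.Normal]
    (hU : ∀ M : Subgroup Q, M.Normal → M ≤ U → Group.IsSolvable M → M = ⊥)
    (s : Finset (Subgroup Q)) (hs : ∀ S, S ∈ s ↔ IsComponent U S) (b c : ℕ) (hb : 1 ≤ b)
    (hc : s.card ≤ c) (hB : ∀ S ∈ s, Nat.card S ≤ b) :
    Nat.card U ≤ (b ^ c) ^ Nat.log 2 (b ^ c) := by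
  classical
  let W : Subgroup Q := s.sup id
  have hW : W.Normal := by
    refine ⟨fun w hw g => ?_⟩
    have h1 : W ≤ cj W g⁻¹ := by
      apply Finset.sup_le
      intro S hS x hx
      rw [mem_cj, inv_inv]
      have h2 : cj S g ≤ W := by
        have h3 : cj S g ∈ s := (hs _).2 (comp_cj ((hs S).1 hS) g)
        exact Finset.le_sup (f := id) h3
      apply h2
      rw [mem_cj]
      have : g⁻¹ * (g * x * g⁻¹) * g = x := by group
      rwa [this]
    have h2 := h1 hw
    rwa [mem_cj, inv_inv] at h2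
  have hCn : (Subgroup.centralizer (W : Set Q)).Normal := centralizer_normal W hW
  have hcap : Subgroup.centralizer (W : Set Q) ⊓ U = ⊥ := by
    by_contra hcon
    obtain ⟨N, hN, hNle⟩ := exists_minNormal _ (inferInstance :
      (Subgroup.centralizer (W : Set Q) ⊓ U).Normal) hcon
    obtain ⟨S, hS, hSN⟩ := exists_comp hN (hNle.trans inf_le_right)
    have hSW : S ≤ W := Finset.le_sup (f := id) ((hs S).2 hS)
    obtain ⟨-, ⟨a, b, hab⟩, -⟩ := comp_simple hU hS
    apply hab
    apply Subtype.ext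
    have h1 : (b : Q) ∈ Subgroup.centralizer (W : Set Q) := (hNle (hSN b.2)).1
    exact Subgroup.mem_centralizer_iff.1 h1 a (hSW a.2)
  have hcardW : Nat.card W ≤ b ^ c := by
    refine (card_sup_le_prod s ?_).trans ?_
    · intro S hS T hT hne
      exact comp_commute ((hs S).1 hS) ((hs T).1 hT) hne
    · calc ∏ S ∈ s, Nat.card S ≤ ∏ S ∈ s, b := Finset.prod_le_prod' fun S hS => hB S hS
        _ = b ^ s.card := by rw [Finset.prod_const]
        _ ≤ b ^ c := Nat.pow_le_pow_right hb hc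
  let F : U → MulAut W := fun u => MulAut.conjNormal (u : Q)
  have hF : Function.Injective F := by
    intro u v huv
    have h1 : (u : Q)⁻¹ * v ∈ Subgroup.centralizer (W : Set Q) ⊓ U := by
      refine ⟨?_, U.mul_mem (U.inv_mem u.2) v.2⟩
      change (u : Q)⁻¹ * v ∈ Subgroup.centralizer (W : Set Q)
      rw [Subgroup.mem_centralizer_iff]
      intro w hw
      have h2 := congrArg (fun σ : MulAut W => ((σ ⟨w, hw⟩ : W) : Q)) huv
      simp only [F, MulAut.conjNormal_apply] at h2
      calc w * ((u : Q)⁻¹ * v) = (u : Q)⁻¹ * (u * w * (u : Q)⁻¹) * v := by group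
        _ = (u : Q)⁻¹ * (v * w * (v : Q)⁻¹) * v := by rw [h2]
        _ = (u : Q)⁻¹ * v * w := by group
    rw [hcap, Subgroup.mem_bot] at h1
    exact Subtype.ext (inv_mul_eq_one.1 h1)
  have hbc : 0 < b ^ c := Nat.pow_pos hb
  calc Nat.card U ≤ Nat.card (MulAut W) := Nat.card_le_card_of_injective F hF
    _ ≤ Nat.card W ^ (Nat.log 2 (Nat.card W)) := card_aut_le W
    _ ≤ (b ^ c) ^ (Nat.log 2 (Nat.card W)) := Nat.pow_le_pow_left hcardW _
    _ ≤ (b ^ c) ^ (Nat.log 2 (b ^ c)) := Nat.pow_le_pow_right hbc (Nat.log_mono_right hcardW)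

end Pool.Agent.H72.Comp
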