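import Pool.Agent.H72.Comp.Count
import Pool.Agent.H72.Comp.Socle
import Pool.Agent.H72.Jordan.Main
import Pool.Agent.H42.Hb.AltF
import Pool.Agent.H72.Sol.Minimal

/-!
A Jordan type theorem for Heilbronn class functions on groups whose nonabelian composition factors
are rigid or of bounded order, and the resulting bound of projective images.
-/

open Finset

open scoped commutatorElement

namespace Pool.Agent.H72.Comp

open Pool.Agent.H7.HB Pool.Agent.H72.Cover Pool.Agent.H72.Jordan Pool.Agent.H42.Hb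
open Pool.Agent.H98.GL Pool.Agent.H72.Sol

variable {G : Type} [Group G] {θ : G → ℂ}

theorem const_sup2 [Finite G] (h : Heil θ) {S K : Subgroup G}
    (hc : ∀ x ∈ S, ∀ y ∈ K, x * y = y * x) (hS : ∀ x ∈ S, θ x = θ 1)
    (hK : ∀ x ∈ K, θ x = θ 1) : ∀ x ∈ S ⊔ K, θ x = θ 1 := by
  let f : S × K →* G := MonoidHom.noncommCoprod S.subtype K.subtype (fun x y => hc x x.2 y y.2)
  have hf : ∀ p : S × K, f p = (p.1 : G) * p.2 := fun p => rfl
  have h1 : f.range = S ⊔ K := by
    have h2 := MonoidHom.noncommCoprod_range S.subtype K.subtype (fun x y => hc x x.2 y y.2)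
    rw [S.range_subtype, K.range_subtype] at h2
    exact h2
  intro x hx
  rw [← h1] at hx
  obtain ⟨⟨s, k⟩, rfl⟩ := hx
  have hn : (Subgroup.prod (⊤ : Subgroup S) (⊥ : Subgroup K)).Normal := inferInstance
  have h3 := kernel (h.comp f) (Subgroup.prod (⊤ : Subgroup S) (⊥ : Subgroup K)) (by
    rintro ⟨a, b⟩ hab
    have hb : b = 1 := Subgroup.mem_bot.1 hab.2
    subst hb
    change θ (f (a, 1)) = θ (f 1)
    rw [hf, map_one, Subgroup.coe_one, mul_one]
    exact hS a a.2) (s, k) (1, k) (by
    refine ⟨Subgroup.mem_top _, ?_⟩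
    change k * k⁻¹ ∈ (⊥ : Subgroup K)
    rw [mul_inv_cancel]
    exact one_mem _)
  have h4 : θ (f (s, k)) = θ (f (1, k)) := h3
  rw [h4, hf, Subgroup.coe_one, one_mul]
  exact hK k k.2

theorem const_sup [Finite G] (h : Heil θ) {ι : Type} (s : Finset ι) (E : ι → Subgroup G)
    (hcomm : ∀ i ∈ s, ∀ j ∈ s, i ≠ j → ∀ x ∈ E i, ∀ y ∈ E j, x * y = y * x)
    (hE : ∀ i ∈ s, ∀ x ∈ E i, θ x = θ 1) : ∀ x ∈ s.sup E, θ x = θ 1 := by
  classical
  induction s using Finset.induction_on with
  | empty =>
    intro x hx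
    rw [Finset.sup_empty, Subgroup.mem_bot] at hx
    rw [hx]
  | insert i s hi ih =>
    rw [Finset.sup_insert]
    refine const_sup2 h ?_ (hE i (Finset.mem_insert_self _ _)) (ih ?_ ?_)
    · intro x hx y hy
      have h1 : s.sup E ≤ Subgroup.centralizer {x} := by
        apply Finset.sup_le
        intro j hj t ht
        rw [Subgroup.mem_centralizer_iff]
        intro z hz
        rw [Set.mem_singleton_iff.1 hz]
        exact hcomm i (Finset.mem_insert_self _ _) j (Finset.mem_insert_of_mem hj) (fun h' => by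
          rw [h'] at hi
          exact hi hj) x hx t ht
      exact Subgroup.mem_centralizer_iff.1 (h1 hy) x rfl
    · intro a ha b hb
      exact hcomm a (Finset.mem_insert_of_mem ha) b (Finset.mem_insert_of_mem hb)
    · intro a ha
      exact hE a (Finset.mem_insert_of_mem ha)

/-- the bound -/
def cJ (r B : ℕ) : ℕ :=
  (((max 1 B) ^ (r - 1)) ^ Nat.log 2 ((max 1 B) ^ (r - 1))) * bJ r

/-- every nonabelian composition factor has order at most `B` or is rigid -/
def BoundedFactors (r B : ℕ) (G : Type) [Group G] : Prop :=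
  ∀ (S : Type) [Group S] [Finite S], IsCompFactor S G → (∃ a b : S, a * b ≠ b * a) →
    Nat.card S ≤ B ∨ CoverRigid r S

theorem comm_self_le (S : Subgroup G) : ⁅S, S⁆ ≤ S := by
  rw [Subgroup.commutator_le]
  intro x hx y hy
  rw [commutatorElement_def]
  exact S.mul_mem (S.mul_mem (S.mul_mem hx hy) (S.inv_mem hx)) (S.inv_mem hy)

/-- **Jordan type theorem**, faithful case. -/
theorem jordan_factors [Finite G] (h : Heil θ) {r B : ℕ} (hr : θ 1 = r) (hf : Faithful θ)
    (hG : BoundedFactors r B G) :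
    ∃ A : Subgroup G, A.Normal ∧ (∀ a ∈ A, ∀ b ∈ A, a * b = b * a) ∧ A.index ≤ cJ r B := by
  classical
  obtain ⟨A, T, hAn, hTn, hAT, hc, hi, hs⟩ := jordan h hr hf
  refine ⟨A, hAn, fun a ha b hb => hc a ha b (hAT hb), ?_⟩
  let π : G →* G ⧸ A := QuotientGroup.mk' A
  have hπ : Function.Surjective π := QuotientGroup.mk'_surjective A
  have hker : ∀ x, π x = 1 ↔ x ∈ A := fun x => QuotientGroup.eq_one_iff x
  let U : Subgroup (G ⧸ A) := T.map π
  have hUn : U.Normal := Subgroup.Normal.map hTn _ hπ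
  have hcomapT : ∀ M : Subgroup (G ⧸ A), M ≤ U → M.comap π ≤ T := by
    intro M hM x hx
    obtain ⟨t, ht, htx⟩ := hM hx
    have h1 : t⁻¹ * x ∈ A := by
      rw [← hker, map_mul, map_inv, htx, inv_mul_cancel]
    have h2 := T.mul_mem ht (hAT h1)
    rwa [mul_inv_cancel_left] at h2
  have hU : ∀ M : Subgroup (G ⧸ A), M.Normal → M ≤ U → Group.IsSolvable M → M = ⊥ := by
    intro M hMn hMU hMs
    have hNn : (M.comap π).Normal := inferInstance
    have hA1 : Group.IsSolvable A := by
      have h2 : commutator A = ⊥ := by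
        rw [commutator_def, Subgroup.commutator_eq_bot_iff_le_centralizer]
        intro a _
        rw [Subgroup.mem_centralizer_iff]
        intro b _
        exact Subtype.ext (hc b b.2 a (hAT a.2))
      rw [Group.isSolvable_def]
      exact ⟨1, by rw [derivedSeries_one, h2]⟩
    have hNs : Group.IsSolvable (M.comap π) := by
      let g : M.comap π →* M := π.subgroupComap M
      let f : A →* M.comap π := Subgroup.inclusion (fun a ha => by
        rw [Subgroup.mem_comap, (hker a).2 ha]
        exact M.one_mem)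
      refine Group.isSolvable_of_ker_le_range f g ?_
      intro x hx
      have h1 : π (x : G) = 1 := congrArg Subtype.val (MonoidHom.mem_ker.1 hx)
      exact ⟨⟨x, (hker _).1 h1⟩, rfl⟩
    have h1 := hs _ hNn (hcomapT M hMU) hNs
    rw [eq_bot_iff]
    intro m hm
    obtain ⟨x, rfl⟩ := hπ m
    rw [Subgroup.mem_bot, hker]
    exact h1 hm
  let s : Finset (Subgroup (G ⧸ A)) := (Set.toFinite {S | IsComponent U S}).toFinset
  have hsmem : ∀ S, S ∈ s ↔ IsComponent U S := fun S => by simp [s]
  have hSU : ∀ S, IsComponent U S → S ≤ U := by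
    rintro S ⟨N, -, hNU, hSN, -⟩
    exact hSN.trans hNU
  let E : Subgroup (G ⧸ A) → Subgroup G := fun S => ⁅S.comap π, S.comap π⁆
  have hE1 : ∀ S, E S ≤ S.comap π := fun S => comm_self_le _
  have hET : ∀ S ∈ s, S.comap π ≤ T := fun S hS => hcomapT S (hSU S ((hsmem S).1 hS))
  have hmap : ∀ S ∈ s, (E S).map π = S := by
    intro S hS
    change (⁅S.comap π, S.comap π⁆ : Subgroup G).map π = S
    rw [Subgroup.map_commutator, Subgroup.map_comap_eq_self_of_surjective hπ,
      comp_perfect hU ((hsmem S).1 hS)]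
  have hperf : ∀ S ∈ s, ⁅E S, E S⁆ = E S := by
    intro S hS
    refine le_antisymm (comm_self_le _) ?_
    change (⁅S.comap π, S.comap π⁆ : Subgroup G) ≤ _
    rw [Subgroup.commutator_le]
    intro x hx y hy
    have hdec : ∀ x ∈ S.comap π, ∃ e ∈ E S, ∃ a ∈ A, x = e * a := by
      intro x hx
      have h1 : π x ∈ (E S).map π := by rw [hmap S hS]; exact hx
      obtain ⟨e, he, hex⟩ := h1
      refine ⟨e, he, e⁻¹ * x, ?_, by group⟩
      rw [← hker, map_mul, map_inv, hex, inv_mul_cancel]
    obtain ⟨e, he, a, ha, rfl⟩ := hdec x hx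
    obtain ⟨e', he', a', ha', rfl⟩ := hdec y hy
    have hT1 : e ∈ T := hET S hS (hE1 S he)
    have hT2 : e' ∈ T := hET S hS (hE1 S he')
    have c1 : Commute a e' := hc a ha e' hT2
    have c2 : Commute a' e := hc a' ha' e hT1
    have c3 : Commute a a' := hc a ha a' (hAT ha')
    have h1 : ⁅e * a, e' * a'⁆ = ⁅e, e'⁆ := by
      rw [commutatorElement_def, commutatorElement_def]
      calc e * a * (e' * a') * (e * a)⁻¹ * (e' * a')⁻¹
          = e * (a * e') * a' * a⁻¹ * e⁻¹ * a'⁻¹ * e'⁻¹ := by group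
        _ = e * (e' * a) * a' * a⁻¹ * e⁻¹ * a'⁻¹ * e'⁻¹ := by rw [c1.eq]
        _ = e * e' * (a * a') * a⁻¹ * e⁻¹ * a'⁻¹ * e'⁻¹ := by group
        _ = e * e' * (a' * a) * a⁻¹ * e⁻¹ * a'⁻¹ * e'⁻¹ := by rw [c3.eq]
        _ = e * e' * (a' * e⁻¹) * a'⁻¹ * e'⁻¹ := by group
        _ = e * e' * (e⁻¹ * a') * a'⁻¹ * e'⁻¹ := by rw [c2.inv_right.eq]
        _ = e * e' * e⁻¹ * e'⁻¹ := by group
    rw [h1]
    exact Subgroup.commutator_mem_commutator he he'
  have hcomm : ∀ S ∈ s, ∀ S' ∈ s, S ≠ S' → ∀ x ∈ E S, ∀ y ∈ E S', x * y = y * x := by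
    intro S hS S' hS' hne x hx y hy
    have h1 : ⁅S.comap π, S'.comap π⁆ ≤ A := by
      rw [Subgroup.commutator_le]
      intro a ha b hb
      rw [← hker, map_commutatorElement, commutatorElement_eq_one_iff_mul_comm]
      exact comp_commute ((hsmem S).1 hS) ((hsmem S').1 hS') hne _ ha _ hb
    have h2 : ⁅A, S.comap π⁆ = ⊥ := by
      rw [Subgroup.commutator_eq_bot_iff_le_centralizer]
      intro a ha
      rw [Subgroup.mem_centralizer_iff]
      intro b hb
      exact (hc a ha b (hET S hS hb)).symm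
    have h3 : ⁅⁅S.comap π, S'.comap π⁆, S.comap π⁆ = ⊥ :=
      le_bot_iff.1 ((Subgroup.commutator_mono h1 le_rfl).trans h2.le)
    have h4 : ⁅⁅S'.comap π, S.comap π⁆, S.comap π⁆ = ⊥ := by
      rw [Subgroup.commutator_comm (S'.comap π)]
      exact h3
    have h5 := Subgroup.commutator_commutator_eq_bot_of_rotate h3 h4
    rw [Subgroup.commutator_eq_bot_iff_le_centralizer] at h5
    have h6 := h5 hx
    exact (Subgroup.mem_centralizer_iff.1 h6 y (hE1 S' hy)).symm
  have hEcj : ∀ S (g : G), cj (E S) g = E (cj S (π g)) := by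
    intro S g
    have h1 : cj (S.comap π) g = (cj S (π g)).comap π := by
      ext w
      rw [mem_cj, Subgroup.mem_comap, Subgroup.mem_comap, mem_cj, map_mul, map_mul, map_inv]
    change cj ⁅S.comap π, S.comap π⁆ g = ⁅(cj S (π g)).comap π, (cj S (π g)).comap π⁆
    rw [← h1]
    exact Subgroup.map_commutator _ _ _
  have hnc : ∀ S ∈ s, ∃ x ∈ E S, θ x ≠ θ 1 := by
    by_contra hcon
    push Not at hcon
    obtain ⟨S₀, hS₀, hS₀c⟩ := hcon
    let O : Finset (Subgroup (G ⧸ A)) := s.filter fun S => ∀ x ∈ E S, θ x = θ 1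
    have hO : ∀ S ∈ O, S ∈ s ∧ ∀ x ∈ E S, θ x = θ 1 := fun S hS => Finset.mem_filter.1 hS
    have hconst : ∀ x ∈ O.sup E, θ x = θ 1 :=
      const_sup h O E (fun S hS S' hS' => hcomm S (hO S hS).1 S' (hO S' hS').1)
        (fun S hS => (hO S hS).2)
    have hnor : (O.sup E).Normal := by
      refine ⟨fun w hw g => ?_⟩
      have h1 : O.sup E ≤ cj (O.sup E) g⁻¹ := by
        apply Finset.sup_le
        intro S hS x hx
        rw [mem_cj, inv_inv]
        have h2 : cj S (π g) ∈ O := by
          refine Finset.mem_filter.2 ⟨(hsmem _).2 (comp_cj ((hsmem S).1 (hO S hS).1) _), ?_⟩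
          intro z hz
          rw [← hEcj, mem_cj] at hz
          have h3 := (hO S hS).2 _ hz
          rw [← h3]
          have h4 := h.conj g⁻¹ z
          rw [inv_inv] at h4
          exact h4.symm
        have h3 : E (cj S (π g)) ≤ O.sup E := Finset.le_sup h2
        apply h3
        rw [← hEcj, mem_cj]
        have : g⁻¹ * (g * x * g⁻¹) * g = x := by group
        rwa [this]
      have h2 := h1 hw
      rwa [mem_cj, inv_inv] at h2
    have h1 := hf _ hnor hconst
    have h2 : E S₀ = ⊥ := by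
      rw [eq_bot_iff, ← h1]
      exact Finset.le_sup (Finset.mem_filter.2 ⟨hS₀, hS₀c⟩)
    have h3 := hmap S₀ hS₀
    rw [h2, Subgroup.map_bot] at h3
    obtain ⟨N, -, -, -, hb, -⟩ := (hsmem S₀).1 hS₀
    exact hb h3.symm
  have hcount := count h hr s E hcomm hperf hnc
  have hB : ∀ S ∈ s, Nat.card S ≤ max 1 B := by
    intro S hS
    obtain ⟨h1, h2, h3⟩ := comp_simple hU ((hsmem S).1 hS)
    have h4 : IsCompFactor S (G ⧸ A) := ⟨h1, S, h3, MonoidHom.id S, Function.surjective_id⟩
    rcases hG S (h4.of_surjective π hπ) h2 with h5 | h5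
    · exact h5.trans (le_max_right _ _)
    exfalso
    let f : E S →* S := (π.comp (E S).subtype).codRestrict S (fun x => hE1 S x.2)
    have hfs : Function.Surjective f := by
      intro t
      have h6 : (t : G ⧸ A) ∈ (E S).map π := by rw [hmap S hS]; exact t.2
      obtain ⟨e, he, het⟩ := h6
      exact ⟨⟨e, he⟩, Subtype.ext het⟩
    have hfk : f.ker ≤ Subgroup.center (E S) := by
      intro x hx
      have h6 : π (x : G) = 1 := congrArg Subtype.val (MonoidHom.mem_ker.1 hx)
      rw [Subgroup.mem_center_iff]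
      intro y
      apply Subtype.ext
      exact (hc x ((hker _).1 h6) y (hET S hS (hE1 S y.2))).symm
    have h6 := h5 (E S) f hfs hfk (perfect_of_comm (hperf S hS)) (fun x => θ x)
      (h.comp (E S).subtype) r le_rfl hr
    obtain ⟨x, hx, hne⟩ := hnc S hS
    exact hne (h6 ⟨x, hx⟩)
  have hcard := card_le_of_components U hU s hsmem (max 1 B) (r - 1) (le_max_left _ _) hcount hB
  have h1 : A.relIndex T = Nat.card U := by
    have h2 := Subgroup.relIndex_ker (K := T) π
    rw [QuotientGroup.ker_mk'] at h2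
    exact h2
  rw [← Subgroup.relIndex_mul_index hAT, h1]
  exact Nat.mul_le_mul hcard hi

theorem BoundedFactors.of_surjective {r B : ℕ} {H : Type} [Group H] (hG : BoundedFactors r B G)
    (f : G →* H) (hf : Function.Surjective f) : BoundedFactors r B H :=
  fun S _ _ hS hn => hG S (hS.of_surjective f hf) hn

/-- **Jordan type theorem.**  Let all nonabelian composition factors of `G` be rigid or of order at
most `B`.  A Heilbronn class function of degree `r` is inflated from a quotient with an abelian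
normal subgroup of index at most `cJ r B`. -/
theorem jordan_general [Finite G] (h : Heil θ) {r B : ℕ} (hr : θ 1 = r)
    (hG : BoundedFactors r B G) :
    ∃ M A : Subgroup G, M.Normal ∧ A.Normal ∧ M ≤ A ∧ (∀ g : G, ∀ m ∈ M, θ (g * m) = θ g) ∧
      (∀ N : Subgroup G, N.Normal → ((∀ x ∈ N, θ x = θ 1) ↔ N ≤ M)) ∧
      ⁅A, A⁆ ≤ M ∧ A.index ≤ cJ r B := by
  obtain ⟨M, hM, hM1, hM2⟩ := exists_top h
  have hcst : Cst θ M := by
    intro x y hxy
    have h1 : y⁻¹ * x ∈ M := by
      have := hM.conj_mem _ hxy y⁻¹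
      have h2 : y⁻¹ * (x * y⁻¹) * y⁻¹⁻¹ = y⁻¹ * x := by group
      rwa [h2] at this
    have h2 := hM1 y _ h1
    rwa [mul_inv_cancel_left] at h2
  obtain ⟨θ', h2, h3⟩ := exists_quot h M hcst
  have hs := QuotientGroup.mk'_surjective M
  have hf : Faithful θ' := by
    intro N hN hNc
    have h4 : N.comap (QuotientGroup.mk' M) ≤ M := by
      rw [← hM2 _ inferInstance]
      intro x hx
      have h5 : θ' (x : G ⧸ M) = θ' 1 := hNc _ hx
      rw [← h3, h5, ← h3 1]
      rfl
    rw [eq_bot_iff]
    intro q hq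
    obtain ⟨x, rfl⟩ := hs q
    rw [Subgroup.mem_bot]
    exact (QuotientGroup.eq_one_iff x).2 (h4 hq)
  obtain ⟨A, hA, hAc, hAi⟩ := jordan_factors h2 (r := r) (B := B) (by rw [← hr, ← h3 1]; rfl) hf
    (hG.of_surjective _ hs)
  refine ⟨M, A.comap (QuotientGroup.mk' M), hM, inferInstance, ?_, hM1, hM2, ?_, ?_⟩
  · intro m hm
    rw [Subgroup.mem_comap]
    have : (QuotientGroup.mk' M) m = 1 := (QuotientGroup.eq_one_iff m).2 hm
    rw [this]
    exact A.one_mem
  · rw [Subgroup.commutator_le]
    intro x hx y hy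
    rw [← QuotientGroup.eq_one_iff]
    have h4 : (QuotientGroup.mk' M) ⁅x, y⁆ = 1 := by
      rw [map_commutatorElement, commutatorElement_eq_one_iff_mul_comm]
      exact hAc _ hx _ hy
    exact h4
  · rw [Subgroup.index_comap_of_surjective _ hs]
    exact hAi

/-- **Bounded projective image**, group form: a Heilbronn class function with a negative inner
product has a section with a negative inner product and bounded central index. -/
theorem bounded_section [Finite G] (h : Heil θ) {r B : ℕ} (hr : θ 1 = r)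
    (hG : BoundedFactors r B G) (hnp : ¬ Pos θ) :
    ∃ (K X : Type) (_ : Group K) (_ : Finite K) (_ : Group X) (_ : Finite X) (f : K →* G)
      (p : K →* X), Function.Injective f ∧ Function.Surjective p ∧
      ¬ Pos (defl p (fun k => θ (f k))) ∧ (Subgroup.center X).index ≤ cJ r B := by
  obtain ⟨M, A, hM, hA, hMA, hM1, -, hAM, hAi⟩ := jordan_general h hr hG
  obtain ⟨K, X, _, _, _, _, f, p, hf, hp, hbad, hsub, hquot⟩ := exists_section hnp
  refine ⟨K, X, inferInstance, inferInstance, inferInstance, inferInstance, f, p, hf, hp, hbad, ?_⟩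
  have hψ := heil_defl (h.comp f) hp
  obtain ⟨d, hd, -⟩ := deg_defl (h.comp f) hp (r := r) (by rw [map_one, hr])
  have hdata := (minimal_data hψ hd hsub hquot hbad).1
  have hfaith := minimal_faithful hψ hquot hbad
  -- the function is constant on the image of `M`
  have hMX : ((M.comap f).map p) = ⊥ := by
    have hn : ((M.comap f).map p).Normal := Subgroup.Normal.map inferInstance _ hp
    refine hfaith _ hn ?_
    rintro _ ⟨m, hm, rfl⟩
    classical
    let _ : Fintype K := Fintype.ofFinite K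
    rw [defl_eq, defl_eq]
    congr 1
    rw [← Equiv.sum_comp (Equiv.mulRight m)]
    refine Finset.sum_congr rfl fun k _ => ?_
    have h1 : θ (f (k * m)) = θ (f k) := by
      rw [map_mul]
      exact hM1 _ _ hm
    have h2 : p (k * m) = p m ↔ p k = 1 := by
      rw [map_mul]
      exact mul_eq_right
    rw [Equiv.coe_mulRight, h1]
    simp only [h2]
  -- the image of `A` is commutative, hence central
  have hAX : ((A.comap f).map p) ≤ Subgroup.center X := by
    refine hdata _ (Subgroup.Normal.map inferInstance _ hp) ?_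
    rintro _ ⟨a, ha, rfl⟩ _ ⟨b, hb, rfl⟩
    have h1 : p ⁅a, b⁆ ∈ ((M.comap f).map p) := by
      refine ⟨⁅a, b⁆, ?_, rfl⟩
      rw [SetLike.mem_coe, Subgroup.mem_comap, map_commutatorElement]
      exact hAM (Subgroup.commutator_mem_commutator ha hb)
    rw [hMX, Subgroup.mem_bot, map_commutatorElement,
      commutatorElement_eq_one_iff_mul_comm] at h1
    exact h1
  have h1 : (Subgroup.center X).index ≤ ((A.comap f).map p).index :=
    Nat.le_of_dvd (Nat.pos_of_ne_zero Subgroup.index_ne_zero_of_finite)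
      (Subgroup.index_dvd_of_le hAX)
  have h2 : ((A.comap f).map p).index ≤ (A.comap f).index :=
    Nat.le_of_dvd (Nat.pos_of_ne_zero Subgroup.index_ne_zero_of_finite)
      (Subgroup.index_map_dvd _ hp)
  have h3 : (A.comap f).index ≤ A.index := by
    rw [Subgroup.index_comap]
    exact Nat.le_of_dvd (Nat.pos_of_ne_zero Subgroup.index_ne_zero_of_finite)
      (Subgroup.relIndex_dvd_index_of_normal _ _)
  exact h1.trans (h2.trans (h3.trans hAi))

end Pool.Agent.H72.Comp
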