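import Pool.Agent.H72.Comp.Iso

/-!
The number of commuting perfect subgroups on which a Heilbronn class function is not constant.
-/

open Finset

open scoped commutatorElement

namespace Pool.Agent.H72.Comp

open Pool.Agent.H7.HB Pool.Agent.H72.Cover Pool.Agent.H72.Jordan Pool.Agent.H42.Hb

variable {G : Type} [Group G] {θ : G → ℂ}

theorem perfect_of_comm {E : Subgroup G} (hE : ⁅E, E⁆ = E) : commutator E = ⊤ := by
  rw [eq_top_iff]
  intro m _
  have h2 : (commutator E).map E.subtype = E := by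
    rw [commutator_def, Subgroup.map_commutator, ← MonoidHom.range_eq_map, E.range_subtype, hE]
  have h3 : (m : G) ∈ (commutator E).map E.subtype := by
    rw [h2]; exact m.2
  obtain ⟨m', hm', hmm⟩ := h3
  have : m' = m := Subtype.ext hmm
  rwa [this] at hm'

theorem comm_subgroupOf {E C : Subgroup G} (hEC : E ≤ C) (hE : ⁅E, E⁆ = E) :
    ⁅E.subgroupOf C, E.subgroupOf C⁆ = E.subgroupOf C := by
  apply Subgroup.map_injective C.subtype_injective
  rw [Subgroup.map_commutator, Subgroup.subgroupOf_map_subtype, inf_eq_left.2 hEC, hE]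

/-- a perfect subgroup with nonconstant `θ` contains a commutative subgroup with two
constituents -/
theorem exists_two [Finite G] (h : Heil θ) {r : ℕ} (hr : θ 1 = r) {E : Subgroup G}
    (hE : ⁅E, E⁆ = E) (hnc : ∃ x ∈ E, θ x ≠ θ 1) :
    ∃ (A : Type) (_ : CommGroup A) (_ : Fintype A) (φ : A →* G), (∀ a, φ a ∈ E) ∧
      ∃ κ κ' : A →* ℂˣ, κ ≠ κ' ∧ mult h φ κ ≠ 0 ∧ mult h φ κ' ≠ 0 := by
  classical
  obtain ⟨y, hy, hny⟩ : ∃ y ∈ E, ‖θ y‖ ≠ r := by
    by_contra hcon
    push Not at hcon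
    obtain ⟨x, hx, hne⟩ := hnc
    exact hne (iso_perfect (perfect_of_comm hE) (h.comp E.subtype) (r := r) hr
      (fun x => hcon x x.2) ⟨x, hx⟩)
  let A : Subgroup G := Subgroup.zpowers y
  let _ : CommGroup A := commGroupOf A (by
    rintro _ ⟨i, rfl⟩ _ ⟨j, rfl⟩
    simp only
    rw [← zpow_add, ← zpow_add, add_comm])
  let _ : Fintype A := Fintype.ofFinite A
  refine ⟨A, inferInstance, inferInstance, A.subtype, ?_, ?_⟩
  · intro a
    have h1 : A ≤ E := by
      rw [Subgroup.zpowers_le]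
      exact hy
    exact h1 a.2
  by_contra hcon
  push Not at hcon
  apply hny
  have h1 := expand h A.subtype ⟨y, Subgroup.mem_zpowers y⟩
  have h2 := sum_mult h A.subtype
  have h3 : θ y = ∑ κ : A →* ℂˣ, (mult h A.subtype κ : ℂ)
      * ((κ ⟨y, Subgroup.mem_zpowers y⟩ : ℂˣ) : ℂ) := h1
  by_cases h0 : ∃ κ₀ : A →* ℂˣ, mult h A.subtype κ₀ ≠ 0
  · obtain ⟨κ₀, hκ₀⟩ := h0
    have hz : ∀ κ : A →* ℂˣ, κ ≠ κ₀ → mult h A.subtype κ = 0 :=
      fun κ hκ => hcon κ₀ κ (Ne.symm hκ) hκ₀
    rw [h3, Finset.sum_eq_single κ₀ (fun κ _ hκ => by rw [hz κ hκ]; simp) (by simp), norm_mul,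
      norm_char, mul_one, Complex.norm_natCast]
    rw [hr, Finset.sum_eq_single κ₀ (fun κ _ hκ => hz κ hκ) (by simp)] at h2
    exact_mod_cast h2.symm
  · push Not at h0
    rw [h3, Finset.sum_eq_zero (fun κ _ => by rw [h0 κ]; simp), norm_zero]
    rw [hr, Finset.sum_eq_zero (fun κ _ => h0 κ)] at h2
    exact_mod_cast h2.symm

theorem count_aux (n : ℕ) : ∀ (G : Type) [Group G] [Finite G] (θ : G → ℂ) (_ : Heil θ) (r : ℕ)
    (_ : θ 1 = r) (ι : Type) (s : Finset ι) (E : ι → Subgroup G), s.card = n + 1 →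
    (∀ i ∈ s, ∀ j ∈ s, i ≠ j → ∀ x ∈ E i, ∀ y ∈ E j, x * y = y * x) →
    (∀ i ∈ s, ⁅E i, E i⁆ = E i) → (∀ i ∈ s, ∃ x ∈ E i, θ x ≠ θ 1) → n + 2 ≤ r := by
  induction n using Nat.strong_induction_on with
  | _ n ih =>
  intro G _ _ θ h r hr ι s E hs hcomm hperf hnc
  classical
  obtain ⟨i₀, hi₀⟩ : s.Nonempty := Finset.card_pos.1 (by omega)
  obtain ⟨A, _, _, φ, hφ, κ₁, κ₂, hne, hκ₁, hκ₂⟩ := exists_two h hr (hperf i₀ hi₀) (hnc i₀ hi₀)
  let s' := s.erase i₀
  have hs' : s'.card = n := by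
    rw [Finset.card_erase_of_mem hi₀, hs]
    rfl
  let C : Subgroup G := Subgroup.centralizer (φ.range : Set G)
  have hmemC : ∀ g, g ∈ C ↔ ∀ a, φ a * g = g * φ a := by
    intro g
    rw [Subgroup.mem_centralizer_iff]
    constructor
    · intro hg a
      exact hg _ ⟨a, rfl⟩
    · rintro hg _ ⟨a, rfl⟩
      exact hg a
  have hφC : ∀ a, φ a ∈ C := by
    intro a
    rw [hmemC]
    intro b
    rw [← map_mul, ← map_mul, mul_comm]
  let φC : A →* C := φ.codRestrict C hφC
  have hEC : ∀ i ∈ s', E i ≤ C := by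
    intro i hi x hx
    rw [hmemC]
    intro a
    exact hcomm i₀ hi₀ i (Finset.mem_of_mem_erase hi) (Finset.ne_of_mem_erase hi).symm _ (hφ a) x hx
  have hcC : ∀ a x, φC a * x = x * φC a := by
    intro a x
    apply Subtype.ext
    exact (hmemC x).1 x.2 a
  let f : (A →* ℂˣ) → C → ℂ := fun κ x => coef (fun a => (fun y : C => θ y) (φC a * x)) κ
  have hf : ∀ κ, Heil (f κ) := fun κ => heil_coef (h.comp C.subtype) φC hcC κ
  have hsum : ∀ x : C, θ x = ∑ κ, f κ x := by
    intro x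
    have := inversion (fun a => (fun y : C => θ y) (φC a * x)) 1
    simp only [map_one, one_mul, Units.val_one, mul_one] at this
    exact this
  have hdeg : ∀ κ, f κ 1 = (mult h φ κ : ℕ) := by
    intro κ
    rw [← mult_spec]
    unfold f
    simp only [mul_one]
    rfl
  have hrsum : r = ∑ κ, mult h φ κ := by
    have h1 := sum_mult h φ
    rw [hr] at h1
    exact_mod_cast h1
  let t : (A →* ℂˣ) → Finset ι := fun κ => s'.filter fun i => ∃ x : C, (x : G) ∈ E i ∧
    f κ x ≠ f κ 1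
  have ht : ∀ κ, (t κ).card + (if mult h φ κ = 0 then 0 else 1) ≤ mult h φ κ := by
    intro κ
    by_cases h0 : mult h φ κ = 0
    · have hz : f κ = 0 := by
        funext x
        have h1 := norm_le (hf κ) (hdeg κ) x
        rw [h0, Nat.cast_zero] at h1
        exact norm_le_zero_iff.1 h1
      have ht0 : t κ = ∅ := by
        rw [Finset.eq_empty_iff_forall_notMem]
        intro i hi
        obtain ⟨-, x, -, hx⟩ := Finset.mem_filter.1 hi
        rw [hz] at hx
        exact hx rfl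
      rw [ht0, if_pos h0, h0]
      simp
    · rw [if_neg h0]
      rcases Nat.eq_zero_or_pos (t κ).card with h1 | h1
      · rw [h1]
        omega
      · have hlt : (t κ).card - 1 < n := by
          have h2 : (t κ).card ≤ s'.card := Finset.card_le_card (Finset.filter_subset _ _)
          omega
        have h2 := ih _ hlt C (f κ) (hf κ) _ (hdeg κ) ι (t κ) (fun i => (E i).subgroupOf C)
          (by omega) (by
            intro i hi j hj hij x hx y hy
            apply Subtype.ext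
            exact hcomm i (Finset.mem_of_mem_erase (Finset.mem_filter.1 hi).1) j
              (Finset.mem_of_mem_erase (Finset.mem_filter.1 hj).1) hij x hx y hy) (by
            intro i hi
            have hi' := (Finset.mem_filter.1 hi).1
            exact comm_subgroupOf (hEC i hi') (hperf i (Finset.mem_of_mem_erase hi'))) (by
            intro i hi
            obtain ⟨-, x, hx, hx'⟩ := Finset.mem_filter.1 hi
            exact ⟨x, hx, hx'⟩)
        omega
  have hcover : s' ⊆ Finset.univ.biUnion t := by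
    intro i hi
    obtain ⟨x, hx, hne⟩ := hnc i (Finset.mem_of_mem_erase hi)
    have hxC : x ∈ C := hEC i hi hx
    obtain ⟨κ, hκ⟩ : ∃ κ, f κ ⟨x, hxC⟩ ≠ f κ 1 := by
      by_contra hcon
      push Not at hcon
      apply hne
      have h1 := hsum ⟨x, hxC⟩
      have h2 := hsum 1
      rw [Finset.sum_congr rfl fun κ _ => hcon κ] at h1
      rw [← h2] at h1
      exact h1
    rw [Finset.mem_biUnion]
    exact ⟨κ, Finset.mem_univ _, Finset.mem_filter.2 ⟨hi, ⟨x, hxC⟩, hx, hκ⟩⟩
  have h1 : n ≤ ∑ κ, (t κ).card := by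
    rw [← hs']
    exact (Finset.card_le_card hcover).trans Finset.card_biUnion_le
  have h2 : 2 ≤ ∑ κ, (if mult h φ κ = 0 then 0 else 1) := by
    have h3 : ∑ κ ∈ ({κ₁, κ₂} : Finset (A →* ℂˣ)), (if mult h φ κ = 0 then 0 else 1)
        ≤ ∑ κ, (if mult h φ κ = 0 then 0 else 1) :=
      Finset.sum_le_sum_of_subset (Finset.subset_univ _)
    rw [Finset.sum_pair hne, if_neg hκ₁, if_neg hκ₂] at h3
    exact h3
  have h3 := Finset.sum_le_sum fun κ (_ : κ ∈ Finset.univ) => ht κ
  rw [Finset.sum_add_distrib, ← hrsum] at h3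
  omega

/-- **Components count.** -/
theorem count [Finite G] (h : Heil θ) {r : ℕ} (hr : θ 1 = r) {ι : Type} (s : Finset ι)
    (E : ι → Subgroup G)
    (hcomm : ∀ i ∈ s, ∀ j ∈ s, i ≠ j → ∀ x ∈ E i, ∀ y ∈ E j, x * y = y * x)
    (hperf : ∀ i ∈ s, ⁅E i, E i⁆ = E i) (hnc : ∀ i ∈ s, ∃ x ∈ E i, θ x ≠ θ 1) :
    s.card ≤ r - 1 := by
  rcases Nat.eq_zero_or_pos s.card with h0 | h0
  · omega
  · have := count_aux (s.card - 1) G θ h r hr ι s E (by omega) hcomm hperf hnc
    omega

end Pool.Agent.H72.Comp
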