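import Pool.Agent.H42.Hb.Kernel
import Pool.Agent.H72.Jordan.Basic
import Mathlib.GroupTheory.Focal

/-!
Heilbronn class functions with constant absolute value.
-/

open Finset

open scoped commutatorElement

namespace Pool.Agent.H72.Comp

open Pool.Agent.H7.HB Pool.Agent.H72.Cover Pool.Agent.H72.Jordan Pool.Agent.H42.Hb

variable {G : Type} [Group G] {θ : G → ℂ}

/-- restriction to a commutative group with constant absolute value is isotypic -/
theorem iso_comm {A : Type} [CommGroup A] [Fintype A] (h : Heil θ) (φ : A →* G) {r : ℕ}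
    (hr : θ 1 = r) (hr0 : r ≠ 0) (hn : ∀ a, ‖θ (φ a)‖ = r) :
    ∃ κ : A →* ℂˣ, ∀ a, θ (φ a) = r * ((κ a : ℂˣ) : ℂ) := by
  classical
  have hsum := sum_mult h φ
  rw [hr] at hsum
  have hsum' : (r : ℝ) = ∑ κ : A →* ℂˣ, (mult h φ κ : ℝ) := by exact_mod_cast hsum
  obtain ⟨κ₀, hκ₀⟩ : ∃ κ : A →* ℂˣ, mult h φ κ ≠ 0 := by
    by_contra hcon
    push Not at hcon
    apply hr0
    have h1 : (r : ℝ) = 0 := by
      rw [hsum']
      exact Finset.sum_eq_zero fun κ _ => by rw [hcon κ]; simp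
    exact_mod_cast h1
  refine ⟨κ₀, fun a => ?_⟩
  have hrR : (0 : ℝ) < r := by exact_mod_cast Nat.pos_of_ne_zero hr0
  have hrC : (r : ℂ) ≠ 0 := by exact_mod_cast hr0
  set z : ℂ := θ (φ a) / r with hz
  have hz1 : ‖z‖ = 1 := by
    rw [hz, norm_div, hn, Complex.norm_natCast, div_self hrR.ne']
  have hzz : z * (starRingEnd ℂ) z = 1 := by
    rw [Complex.mul_conj, Complex.normSq_eq_norm_sq, hz1]
    simp
  have hθ : θ (φ a) = r * z := by rw [hz]; field_simp
  have h1 : ∑ κ : A →* ℂˣ, ((mult h φ κ : ℂ) * (((κ a : ℂˣ) : ℂ) * (starRingEnd ℂ) z)) = r := by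
    have h2 := expand h φ a
    have h3 : ∑ κ : A →* ℂˣ, ((mult h φ κ : ℂ) * (((κ a : ℂˣ) : ℂ) * (starRingEnd ℂ) z))
        = (∑ κ : A →* ℂˣ, (mult h φ κ : ℂ) * ((κ a : ℂˣ) : ℂ)) * (starRingEnd ℂ) z := by
      rw [Finset.sum_mul]
      exact Finset.sum_congr rfl fun κ _ => by ring
    rw [h3, ← h2, hθ, mul_assoc, hzz, mul_one]
  have h2 : ∑ κ : A →* ℂˣ, ((mult h φ κ : ℝ) * (((κ a : ℂˣ) : ℂ) * (starRingEnd ℂ) z).re)
      = ∑ κ : A →* ℂˣ, (mult h φ κ : ℝ) := by
    rw [← hsum']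
    have h3 := congrArg Complex.re h1
    rw [Complex.re_sum, Complex.natCast_re] at h3
    rw [← h3]
    refine Finset.sum_congr rfl fun κ _ => ?_
    rw [← Complex.ofReal_natCast, Complex.re_ofReal_mul]
  have hle : ∀ κ : A →* ℂˣ, (((κ a : ℂˣ) : ℂ) * (starRingEnd ℂ) z).re ≤ 1 := by
    intro κ
    refine (Complex.re_le_norm _).trans ?_
    rw [norm_mul, norm_char, RCLike.norm_conj, hz1, mul_one]
  have h3 := (Finset.sum_eq_sum_iff_of_le (fun κ _ => mul_le_of_le_one_right
    (Nat.cast_nonneg (mult h φ κ)) (hle κ))).1 h2 κ₀ (Finset.mem_univ _)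
  have hm : (mult h φ κ₀ : ℝ) ≠ 0 := by exact_mod_cast hκ₀
  have h4 : (((κ₀ a : ℂˣ) : ℂ) * (starRingEnd ℂ) z).re = 1 := by
    have := mul_left_cancel₀ hm (h3.trans (mul_one _).symm)
    exact this
  have h5 : ((κ₀ a : ℂˣ) : ℂ) * (starRingEnd ℂ) z = 1 := by
    have hnorm : ‖((κ₀ a : ℂˣ) : ℂ) * (starRingEnd ℂ) z‖ = 1 := by
      rw [norm_mul, norm_char, RCLike.norm_conj, hz1, mul_one]
    have h6 := Complex.sq_norm (((κ₀ a : ℂˣ) : ℂ) * (starRingEnd ℂ) z)
    rw [hnorm, Complex.normSq_apply, h4] at h6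
    apply Complex.ext
    · rw [h4]; simp
    · have : (((κ₀ a : ℂˣ) : ℂ) * (starRingEnd ℂ) z).im ^ 2 = 0 := by nlinarith
      simpa using this
  have h6 : ((κ₀ a : ℂˣ) : ℂ) = z := by
    calc ((κ₀ a : ℂˣ) : ℂ) = ((κ₀ a : ℂˣ) : ℂ) * ((starRingEnd ℂ) z * z) := by
          rw [mul_comm ((starRingEnd ℂ) z), hzz, mul_one]
      _ = (((κ₀ a : ℂˣ) : ℂ) * (starRingEnd ℂ) z) * z := by ring
      _ = z := by rw [h5, one_mul]
  rw [hθ, h6]

theorem iso_of_comm [Finite G] (h : Heil θ) {r : ℕ} (hr : θ 1 = r) (hr0 : r ≠ 0)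
    (hn : ∀ x, ‖θ x‖ = r) (hc : ∀ x y : G, x * y = y * x) :
    ∃ μ : G →* ℂˣ, ∀ x, θ x = r * ((μ x : ℂˣ) : ℂ) := by
  let _ : CommGroup G := { (inferInstance : Group G) with mul_comm := hc }
  let _ : Fintype G := Fintype.ofFinite G
  exact iso_comm h (MonoidHom.id G) hr hr0 (fun a => hn a)

/-- Solvable groups. -/
theorem iso_solvable (n : ℕ) : ∀ (P : Type) [Group P] [Finite P] [Group.IsSolvable P]
    (θ : P → ℂ) (_ : Heil θ) (r : ℕ) (_ : θ 1 = r) (_ : r ≠ 0) (_ : ∀ x, ‖θ x‖ = r),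
    Nat.card P ≤ n → ∃ μ : P →* ℂˣ, ∀ x, θ x = r * ((μ x : ℂˣ) : ℂ) := by
  induction n with
  | zero =>
    intro P _ _ _ θ _ r _ _ _ hn
    have : 0 < Nat.card P := Nat.card_pos
    omega
  | succ n ih =>
    intro P _ _ _ θ h r hr hr0 hnorm hcard
    have hrC : (r : ℂ) ≠ 0 := by exact_mod_cast hr0
    by_cases hc : ∀ x y : P, x * y = y * x
    · exact iso_of_comm h hr hr0 hnorm hc
    have hnt : Nontrivial P := by
      by_contra hcon
      rw [not_nontrivial_iff_subsingleton] at hcon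
      exact hc fun x y => Subsingleton.elim _ _
    -- a maximal subgroup containing the commutator subgroup
    let F : Set (Subgroup P) := {M | commutator P ≤ M ∧ M ≠ ⊤}
    have hF : F.Nonempty := ⟨commutator P, le_rfl,
      (Group.IsSolvable.commutator_lt_top_of_nontrivial P).ne⟩
    obtain ⟨M, hM⟩ := (Set.toFinite F).exists_maximal hF
    obtain ⟨hM1, hM2⟩ := hM.prop
    have hMn : M.Normal := by
      refine ⟨fun m hm g => ?_⟩
      have h1 : g * m * g⁻¹ = ⁅g, m⁆ * m := by rw [commutatorElement_def]; group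
      rw [h1]
      refine M.mul_mem (hM1 ?_) hm
      rw [commutator_def]
      exact Subgroup.commutator_mem_commutator (Subgroup.mem_top _) (Subgroup.mem_top _)
    obtain ⟨x, hx⟩ : ∃ x, x ∉ M := by
      by_contra hcon
      push Not at hcon
      exact hM2 (by rw [eq_top_iff]; intro x _; exact hcon x)
    have htop : M ⊔ Subgroup.zpowers x = ⊤ := by
      by_contra hcon
      have h1 : M ⊔ Subgroup.zpowers x ∈ F := ⟨hM1.trans le_sup_left, hcon⟩
      exact hx (hM.2 h1 le_sup_left (Subgroup.mem_sup_right (Subgroup.mem_zpowers x)))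
    have hMc : Nat.card M < Nat.card P := by
      have h1 : M < ⊤ := lt_top_iff_ne_top.2 hM2
      have h2 := Set.Finite.card_lt_card (Set.toFinite ((⊤ : Subgroup P) : Set P)) h1
      have h3 : Nat.card ((⊤ : Subgroup P) : Set P) = Nat.card P := by
        rw [Subgroup.coe_top, Nat.card_univ]
      rw [h3] at h2
      exact h2
    obtain ⟨lam, hlam⟩ := ih M (fun m => θ m) (h.comp M.subtype) r hr hr0
      (fun m => hnorm m) (by omega)
    have hinv : ∀ (g : P) (m m' : M), (m' : P) = g * m * g⁻¹ → lam m' = lam m := by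
      intro g m m' hm
      apply Units.ext
      have h1 : θ m' = θ m := by rw [hm, h.conj]
      rw [hlam, hlam] at h1
      exact mul_left_cancel₀ hrC h1
    by_cases hk : Function.Injective lam
    · -- central
      exfalso
      apply hc
      have hMz : M ≤ Subgroup.center P := by
        intro m hm
        rw [Subgroup.mem_center_iff]
        intro g
        have h1 := hk (hinv g ⟨m, hm⟩ ⟨g * m * g⁻¹, hMn.conj_mem m hm g⟩ rfl)
        have h2 : g * m * g⁻¹ = m := congrArg Subtype.val h1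
        calc g * m = g * m * g⁻¹ * g := by group
          _ = m * g := by rw [h2]
      have hxz : x ∈ Subgroup.center P := by
        have h1 : (⊤ : Subgroup P) ≤ Subgroup.centralizer {x} := by
          rw [← htop, sup_le_iff]
          constructor
          · intro m hm
            rw [Subgroup.mem_centralizer_iff]
            intro y hy
            rw [Set.mem_singleton_iff] at hy
            rw [hy]
            exact Subgroup.mem_center_iff.1 (hMz hm) x
          · rw [Subgroup.zpowers_le, Subgroup.mem_centralizer_iff]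
            intro y hy
            rw [Set.mem_singleton_iff] at hy
            rw [hy]
        rw [Subgroup.mem_center_iff]
        intro g
        exact (Subgroup.mem_centralizer_iff.1 (h1 (Subgroup.mem_top g)) x
          (Set.mem_singleton x)).symm
      have htc : (⊤ : Subgroup P) ≤ Subgroup.center P := by
        rw [← htop, sup_le_iff, Subgroup.zpowers_le]
        exact ⟨hMz, hxz⟩
      intro a b
      exact (Subgroup.mem_center_iff.1 (htc (Subgroup.mem_top b)) a)
    · -- quotient by the kernel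
      let N : Subgroup P := lam.ker.map M.subtype
      have hNn : N.Normal := by
        refine ⟨?_⟩
        rintro _ ⟨a, ha, rfl⟩ g
        refine ⟨⟨g * a * g⁻¹, hMn.conj_mem a a.2 g⟩, ?_, rfl⟩
        rw [SetLike.mem_coe, MonoidHom.mem_ker] at ha ⊢
        rw [hinv g a _ rfl, ha]
      have hNb : N ≠ ⊥ := by
        intro hb
        apply hk
        rw [← MonoidHom.ker_eq_bot_iff]
        rw [Subgroup.map_eq_bot_iff, M.ker_subtype] at hb
        exact le_bot_iff.1 hb
      have hNc : ∀ y ∈ N, θ y = θ 1 := by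
        rintro _ ⟨a, ha, rfl⟩
        rw [SetLike.mem_coe, MonoidHom.mem_ker] at ha
        have := hlam a
        rw [ha] at this
        rw [hr]
        simpa using this
      obtain ⟨θ', h2, h3⟩ := exists_quot h N (kernel h N hNc)
      have h4 := Subgroup.card_eq_card_quotient_mul_card_subgroup N
      have h5 : 1 < Nat.card N := by
        rw [Finite.one_lt_card_iff_nontrivial]
        exact (Subgroup.nontrivial_iff_ne_bot N).2 hNb
      have h6 : 0 < Nat.card (P ⧸ N) := Nat.card_pos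
      have hsol : Group.IsSolvable (P ⧸ N) :=
        Group.isSolvable_of_surjective (QuotientGroup.mk'_surjective N)
      obtain ⟨μ, hμ⟩ := ih (P ⧸ N) θ' h2 r (by rw [← hr, ← h3 1]; rfl) hr0 (by
        intro q
        obtain ⟨q, rfl⟩ := QuotientGroup.mk'_surjective N q
        have := h3 q
        rw [QuotientGroup.mk'_apply, this]
        exact hnorm q) (by nlinarith)
      refine ⟨μ.comp (QuotientGroup.mk' N), fun y => ?_⟩
      rw [← h3 y, hμ]
      rfl

/-- **Perfect groups**: constant absolute value implies constant. -/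
theorem iso_perfect [Finite G] (hG : commutator G = ⊤) (h : Heil θ) {r : ℕ} (hr : θ 1 = r)
    (hn : ∀ x, ‖θ x‖ = r) : ∀ x, θ x = θ 1 := by
  classical
  by_cases hr0 : r = 0
  · intro x
    have h1 := hn x
    rw [hr0, Nat.cast_zero, norm_eq_zero] at h1
    rw [h1, hr, hr0, Nat.cast_zero]
  have hrC : (r : ℂ) ≠ 0 := by exact_mod_cast hr0
  -- Sylow subgroups
  have hsyl : ∀ (p : ℕ) [Fact p.Prime] (P : Sylow p G), ∀ x ∈ P, θ x = θ 1 := by
    intro p _ P
    have hnil : Group.IsNilpotent P := P.2.isNilpotent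
    have hsol : Group.IsSolvable P := inferInstance
    obtain ⟨μ, hμ⟩ := iso_solvable _ P (fun x => θ x) (h.comp (P : Subgroup G).subtype) r hr hr0
      (fun x => hn x) le_rfl
    have hfoc := Subgroup.commutator_inf_eq_focalSubgroup (P := P)
    rw [hG, top_inf_eq] at hfoc
    -- the kernel of `μ` contains the focal subgroup
    have hle : (P : Subgroup G) ≤ μ.ker.map (P : Subgroup G).subtype := by
      conv_lhs => rw [hfoc]
      rw [Subgroup.focalSubgroup_def, Subgroup.closure_le]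
      rintro g ⟨hg, x, hx, u, rfl⟩
      refine ⟨⟨⁅x, u⁆, hg⟩, ?_, rfl⟩
      rw [SetLike.mem_coe, MonoidHom.mem_ker]
      have hy : u * x⁻¹ * u⁻¹ ∈ (P : Subgroup G) := by
        have h1 : u * x⁻¹ * u⁻¹ = x⁻¹ * ⁅x, u⁆ := by rw [commutatorElement_def]; group
        rw [h1]
        exact Subgroup.mul_mem _ (Subgroup.inv_mem _ hx) hg
      have h2 : (⟨⁅x, u⁆, hg⟩ : P) = ⟨x, hx⟩ * ⟨u * x⁻¹ * u⁻¹, hy⟩ := by
        apply Subtype.ext
        change ⁅x, u⁆ = x * (u * x⁻¹ * u⁻¹)
        rw [commutatorElement_def]; group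
      have h3 : μ ⟨u * x⁻¹ * u⁻¹, hy⟩ = μ (⟨x, hx⟩⁻¹) := by
        apply Units.ext
        have h4 : θ (u * x⁻¹ * u⁻¹) = θ x⁻¹ := h.conj _ _
        have h5 := hμ ⟨u * x⁻¹ * u⁻¹, hy⟩
        have h6 := hμ (⟨x, hx⟩⁻¹)
        have h7 : θ (u * x⁻¹ * u⁻¹) = r * ((μ ⟨u * x⁻¹ * u⁻¹, hy⟩ : ℂˣ) : ℂ) := h5
        have h8 : θ x⁻¹ = r * ((μ (⟨x, hx⟩⁻¹) : ℂˣ) : ℂ) := h6
        rw [h7, h8] at h4
        exact mul_left_cancel₀ hrC h4
      rw [h2, map_mul, h3, ← map_mul, mul_inv_cancel, map_one]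
    intro x hx
    obtain ⟨y, hy, hxy⟩ := hle hx
    rw [SetLike.mem_coe, MonoidHom.mem_ker] at hy
    have h1 := hμ y
    rw [hy] at h1
    have h2 : θ x = θ y := by rw [← hxy]; rfl
    rw [h2, hr]
    simpa using h1
  -- cyclic subgroups
  intro y
  let A : Subgroup G := Subgroup.zpowers y
  let _ : CommGroup A := commGroupOf A (by
    rintro _ ⟨i, rfl⟩ _ ⟨j, rfl⟩
    simp only
    rw [← zpow_add, ← zpow_add, add_comm])
  let _ : Fintype A := Fintype.ofFinite A
  obtain ⟨κ, hκ⟩ := iso_comm h A.subtype hr hr0 (fun a => hn a)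
  let y₀ : A := ⟨y, Subgroup.mem_zpowers y⟩
  have hy₀ : θ y = r * ((κ y₀ : ℂˣ) : ℂ) := hκ y₀
  by_cases hκ1 : κ y₀ = 1
  · rw [hy₀, hκ1, hr]
    simp
  exfalso
  have hm1 : orderOf (κ y₀) ≠ 1 := by
    intro h1
    exact hκ1 (orderOf_eq_one_iff.1 h1)
  obtain ⟨p, hp, hpd⟩ := Nat.exists_prime_and_dvd hm1
  have : Fact p.Prime := ⟨hp⟩
  have hmn : orderOf (κ y₀) ∣ orderOf y := by
    have h1 : orderOf (κ y₀) ∣ orderOf y₀ := orderOf_map_dvd κ y₀
    have h2 : orderOf y₀ = orderOf y := by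
      rw [← Subgroup.orderOf_coe]
    rwa [h2] at h1
  have hn0 : orderOf y ≠ 0 := (orderOf_pos y).ne'
  set n := orderOf y with hnn
  set c := n / p ^ n.factorization p with hcdef
  have hcp : ¬ p ∣ c := Nat.not_dvd_ordCompl hp hn0
  have hcn : p ^ n.factorization p * c = n := Nat.ordProj_mul_ordCompl_eq_self n p
  have hzp : IsPGroup p (Subgroup.zpowers (y ^ c)) := by
    apply IsPGroup.of_card (n := n.factorization p)
    rw [Nat.card_zpowers, orderOf_pow_of_dvd ?_ ⟨p ^ n.factorization p, by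
      rw [mul_comm, hcn]⟩]
    · rw [← hnn]
      conv_lhs => rw [← hcn]
      rw [Nat.mul_div_cancel _ (Nat.pos_of_ne_zero (fun h0 => by
        rw [h0, mul_zero] at hcn
        exact hn0 hcn.symm))]
    · intro h0
      rw [h0, mul_zero] at hcn
      exact hn0 hcn.symm
  obtain ⟨P, hP⟩ := hzp.exists_le_sylow
  have h1 := hsyl p P (y ^ c) (hP (Subgroup.mem_zpowers _))
  have h2 : θ (y ^ c) = r * ((κ (y₀ ^ c) : ℂˣ) : ℂ) := hκ (y₀ ^ c)
  rw [h1, hr] at h2
  have h3 : κ (y₀ ^ c) = 1 := by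
    apply Units.ext
    rw [Units.val_one]
    exact (mul_left_cancel₀ hrC (by rw [mul_one]; exact h2)).symm
  rw [map_pow] at h3
  have h4 : orderOf (κ y₀) ∣ c := orderOf_dvd_of_pow_eq_one h3
  exact hcp (hpd.trans h4)

end Pool.Agent.H72.Comp
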